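import Pool.Agent.Helper46.NU.Names

/-!
MP_1fe1ca_lc : packet NSN (the names of the null sets).
-/

open MeasureTheory Filter Topology Set

namespace NU.PkNSN

open Pool.Agent.Helper97.Ku

theorem nset_meas {S : Sys} (w c : Pt S → ℕ → Bool) (hw : Measurable w) (hc : Measurable c) :
    MeasurableSet {z | w z ∈ Nset (c z)} := by
  have h1 : ∀ m : ℕ, MeasurableSet {z : Pt S | w z m = c z m} := by
    intro m
    have hw' : Measurable fun z => w z m := (measurable_pi_apply m).comp hw
    have hc' : Measurable fun z => c z m := (measurable_pi_apply m).comp hc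
    exact measurableSet_eq_fun hw' hc'
  have h2 : {z : Pt S | w z ∈ Nset (c z)} =
      ⋂ a : ℕ, ⋃ n : ℕ, ⋃ _ : n ≥ a, ⋂ m ∈ blk n, {z : Pt S | w z m = c z m} := by
    ext z
    simp only [Nset, mem_setOf_eq, frequently_atTop, mem_iInter, mem_iUnion, exists_prop]
  rw [h2]
  refine MeasurableSet.iInter fun a => MeasurableSet.iUnion fun n => MeasurableSet.iUnion fun _ => ?_
  exact Finset.measurableSet_biInter _ fun m _ => h1 m

theorem eqset_meas {S : Sys} (w c : Pt S → ℕ → Bool) (hw : Measurable w) (hc : Measurable c) :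
    MeasurableSet {z | w z = c z} := by
  have h1 : ∀ m : ℕ, MeasurableSet {z : Pt S | w z m = c z m} := by
    intro m
    have hw' : Measurable fun z => w z m := (measurable_pi_apply m).comp hw
    have hc' : Measurable fun z => c z m := (measurable_pi_apply m).comp hc
    exact measurableSet_eq_fun hw' hc'
  have h2 : {z : Pt S | w z = c z} = ⋂ m : ℕ, {z : Pt S | w z m = c z m} := by
    ext z
    simp only [mem_setOf_eq, mem_iInter, funext_iff]
  rw [h2]
  exact MeasurableSet.iInter h1

theorem e_mono (ehom : G_EHOM) {S : Sys} {L : Type} [CompleteBooleanAlgebra L]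
    (e : Set (Pt S) → L) (hA : AlgI S L e) (K K' : Set (Pt S)) (hK : MeasurableSet K)
    (hK' : MeasurableSet K') (h : K ⊆ K') : e K ≤ e K' := by
  obtain ⟨-, -, -, -, eb, -, -⟩ := ehom S L e hA
  have := (eb K K' hK hK').1
  rw [inter_eq_self_of_subset_left h] at this
  rw [this]
  exact inf_le_right

theorem nsn (ehom : G_EHOM) (ex1 : G_EX1) (rea : G_REA) : G_NSN := by
  intro S L _ e hA c hc
  obtain ⟨h1, h2, -, -⟩ := rea S L e hA
  obtain ⟨-, -, -, -, eb, -, -⟩ := ehom S L e hA
  constructor
  · unfold realsV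
    rw [BSet.iInf_mem _ _ ((ex1 L).1 omN).1]
    rw [iInf_eq_top]
    intro w
    have hw : subV ((NsN e c).el w) omN = ⊤ := (h1 w.1 w.2).2
    rw [hw]
    exact himp_top
  · intro w hw
    apply le_antisymm
    · unfold NsN
      rw [BSet.mem_mk]
      refine iSup_le fun w' => ?_
      have m1 := nset_meas w'.1 c w'.2 hc
      have m2 := eqset_meas w w'.1 hw w'.2
      rw [h2 w w'.1 hw w'.2, ← (eb _ _ m1 m2).1]
      refine e_mono ehom e hA _ _ (m1.inter m2) (nset_meas w c hw hc) ?_
      rintro z ⟨hz1, hz2⟩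
      simp only [mem_setOf_eq] at hz1 hz2 ⊢
      rw [hz2]
      exact hz1
    · unfold NsN
      rw [BSet.mem_mk]
      refine le_trans ?_ (le_iSup _ (⟨w, hw⟩ : {w : Pt S → ℕ → Bool // Measurable w}))
      simp only [BSet.eq_refl, inf_top_eq, le_refl]

end NU.PkNSN
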